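import Mathlib

set_option autoImplicit false

namespace Pool.Agent.Results.MP_6f4934_co.MinTerm

open Matrix Finset

/-- Coefficient vector of the type A equation `d_i + ... + d_{j-1} = d_j + ... + d_{k-1}`
(positions counted from 0). -/
def eqn (R : Type) [Ring R] (n i j k : ℕ) : Fin n → R := fun t =>
  (if i ≤ t.1 ∧ t.1 < j then 1 else 0) - (if j ≤ t.1 ∧ t.1 < k then 1 else 0)

/-- A positive vector of length `m + 1` satisfying `m` linearly independent type A equations. -/
def TypeA {m : ℕ} (d : Fin (m + 1) → ℝ) : Prop :=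
  (∀ t, 0 < d t) ∧ ∃ i j k : Fin m → ℕ, (∀ r, i r < j r ∧ j r < k r ∧ k r ≤ m + 1) ∧
    LinearIndependent ℝ (fun r => eqn ℝ (m + 1) (i r) (j r) (k r)) ∧
    ∀ r, eqn ℝ (m + 1) (i r) (j r) (k r) ⬝ᵥ d = 0

/-- Type A sequences of length `m + 1` in smallest-integer format. -/
def A (m : ℕ) : Set (Fin (m + 1) → ℕ) := {d | TypeA (fun t => (d t : ℝ)) ∧ univ.gcd d = 1}

/-- Smallest term divided by the sum of the terms. -/
noncomputable def ratio {m : ℕ} (d : Fin (m + 1) → ℕ) : ℝ :=
  (univ.inf' univ_nonempty d : ℕ) / ∑ t, (d t : ℝ)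

def ev {n : ℕ} (a : Option (Fin n)) : Fin n → ℤ := fun c => if a = some c then 1 else 0

theorem ev_succAbove {n : ℕ} (a : Option (Fin (n + 1))) (p : Fin (n + 1)) (c : Fin n) :
    ev a (p.succAbove c) = ev (a.bind (finSuccEquiv' p)) c := by
  cases a with
  | none => simp [ev]
  | some x =>
    have : x = p.succAbove c ↔ finSuccEquiv' p x = some c := by
      rw [← finSuccEquiv'_succAbove p c, (finSuccEquiv' p).apply_eq_iff_eq]
    simp only [ev, Option.bind_some, Option.some.injEq, this]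

theorem abs_det_le : ∀ (n : ℕ) (M : Matrix (Fin n) (Fin n) ℤ),
    (∀ r, ∃ a b, M r = ev a - ev b) → |M.det| ≤ 1
  | 0, M, _ => by simp
  | n + 1, M, h => by
    have minor : ∀ r p, |(M.submatrix (Fin.succAbove r) (Fin.succAbove p)).det| ≤ 1 := fun r p =>
      abs_det_le n _ fun s => by
        obtain ⟨a, b, hs⟩ := h (r.succAbove s)
        refine ⟨a.bind (finSuccEquiv' p), b.bind (finSuccEquiv' p), funext fun c => ?_⟩
        simp only [submatrix_apply, hs, Pi.sub_apply, ev_succAbove]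
    have one : ∀ r (a : Option (Fin (n + 1))) (e : ℤ), |e| = 1 → (∀ c, M r c = e * ev a c) →
        |M.det| ≤ 1 := by
      intro r a e he hr
      rw [det_succ_row M r]
      cases a with
      | none => simp [hr, ev]
      | some p =>
        rw [sum_eq_single p (fun c _ hc => by simp [hr, ev, hc.symm]) (by simp)]
        simpa [hr, ev, abs_mul, he] using minor r p
    by_cases h1 : ∀ r, ∃ a b, M r = ev (some a) - ev (some b)
    · have h2 : M.det = 0 := by
        refine exists_mulVec_eq_zero_iff.1 ⟨1, one_ne_zero, funext fun r => ?_⟩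
        obtain ⟨a, b, hr⟩ := h1 r
        simp [mulVec, dotProduct, hr, ev]
      simp [h2]
    · push Not at h1
      obtain ⟨r, h1⟩ := h1
      obtain ⟨a, b, hr⟩ := h r
      cases a with
      | none =>
        refine one r b (-1) (by simp) fun c => ?_
        rw [hr, Pi.sub_apply, neg_one_mul, show ev none c = 0 from if_neg (by simp), zero_sub]
      | some a =>
        cases b with
        | none => exact one r (some a) 1 (by simp) fun c => by simp [hr, ev]
        | some b => exact absurd hr (h1 a b)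

theorem abs_det_two {m : ℕ} (w : Fin (m + 1) → ℤ) (hw : ∃ a b, w = ev a - ev b)
    (u v : Fin m → Fin (m + 1) → ℤ) (hu : ∀ r, ∃ a b, u r = ev a - ev b)
    (hv : ∀ r, ∃ a b, v r = ev a - ev b) :
    |(Matrix.of (Fin.cons w (u + v) : Fin (m + 1) → Fin (m + 1) → ℤ)).det| ≤ 2 ^ m := by
  have h1 := ((detRowAlternating (n := Fin (m + 1)) (R := ℤ)).toMultilinearMap.curryLeft
    w).map_add_univ u v
  change (Matrix.of (Fin.cons w (u + v) : Fin (m + 1) → Fin (m + 1) → ℤ)).det = _ at h1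
  rw [h1]
  refine (abs_sum_le_sum_abs _ _).trans ((sum_le_sum (g := fun _ => (1 : ℤ)) fun s _ => ?_).trans
    (by simp))
  refine abs_det_le _ (Matrix.of (Fin.cons w (s.piecewise u v))) fun r => ?_
  refine Fin.cases hw (fun r => ?_) r
  change ∃ a b, s.piecewise u v r = _
  by_cases hr : r ∈ s
  · rw [piecewise_eq_of_mem _ _ _ hr]
    exact hu r
  · rw [piecewise_eq_of_notMem _ _ _ hr]
    exact hv r

def op (n a : ℕ) : Option (Fin n) := if h : a < n then some ⟨a, h⟩ else none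

def T (n : ℕ) : Matrix (Fin n) (Fin n) ℤ := fun k c => if k ≤ c then 1 else 0

theorem det_T (n : ℕ) : (T n).det = 1 := by
  rw [det_of_isUpperTriangular (fun i j h => by simp only [T]; exact if_neg (not_le.2 h))]
  simp [T]

theorem ev_T (n a : ℕ) (c : Fin n) : (ev (op n a) ᵥ* T n) c = if a ≤ c.1 then 1 else 0 := by
  unfold op
  split_ifs with h1 h2 h3
  · simp only [vecMul, dotProduct, ev, T, Option.some.injEq, ite_mul, one_mul, zero_mul,
      sum_ite_eq, mem_univ, if_true]
    exact if_pos h2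
  · simp only [vecMul, dotProduct, ev, T, Option.some.injEq, ite_mul, one_mul, zero_mul,
      sum_ite_eq, mem_univ, if_true]
    exact if_neg h2
  · omega
  · simp [vecMul, dotProduct, ev]

theorem abs_det_eqn {m : ℕ} (i j k : Fin m → ℕ) (h : ∀ r, i r < j r ∧ j r < k r) :
    |(Matrix.of (Fin.cons 1 (fun r => eqn ℤ (m + 1) (i r) (j r) (k r)) :
      Fin (m + 1) → Fin (m + 1) → ℤ)).det| ≤ 2 ^ m := by
  have h1 := abs_det_two (ev (op (m + 1) 0) - ev none) ⟨_, _, rfl⟩
    (fun r => ev (op (m + 1) (i r)) - ev (op (m + 1) (j r)))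
    (fun r => ev (op (m + 1) (k r)) - ev (op (m + 1) (j r))) (fun _ => ⟨_, _, rfl⟩)
    fun _ => ⟨_, _, rfl⟩
  rw [← mul_one (det _), ← det_T (m + 1), ← det_mul] at h1
  refine le_of_eq_of_le (congrArg (fun M => |det M|) ?_) h1
  ext r c
  rw [mul_apply_eq_vecMul]
  refine Fin.cases ?_ (fun r => ?_) r
  · change 1 = ((ev (op (m + 1) 0) - ev none) ᵥ* T (m + 1)) c
    have : (ev none : Fin (m + 1) → ℤ) = 0 := funext fun _ => by simp [ev]
    rw [this, sub_zero, ev_T]
    simp
  · change eqn ℤ (m + 1) (i r) (j r) (k r) c = ((ev (op (m + 1) (i r)) - ev (op (m + 1) (j r)) +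
      (ev (op (m + 1) (k r)) - ev (op (m + 1) (j r)))) ᵥ* T (m + 1)) c
    simp only [add_vecMul, sub_vecMul, Pi.add_apply, Pi.sub_apply, ev_T, eqn]
    have := h r
    split_ifs <;> omega

theorem sum_le {m : ℕ} {d : Fin (m + 1) → ℝ} (h : TypeA d) (t : Fin (m + 1)) :
    ∑ s, d s ≤ 2 ^ m * d t := by
  obtain ⟨hd, i, j, k, h1, h2, h3⟩ := h
  have hS : 0 < ∑ s, d s := sum_pos (fun s _ => hd s) univ_nonempty
  set B₀ : Matrix (Fin (m + 1)) (Fin (m + 1)) ℤ :=
    Matrix.of (Fin.cons 1 (fun r => eqn ℤ (m + 1) (i r) (j r) (k r))) with hB₀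
  have hb : |B₀.det| ≤ 2 ^ m := abs_det_eqn i j k fun r => ⟨(h1 r).1, (h1 r).2.1⟩
  set B : Matrix (Fin (m + 1)) (Fin (m + 1)) ℝ :=
    Matrix.of (Fin.cons 1 (fun r => eqn ℝ (m + 1) (i r) (j r) (k r))) with hB
  have e : B = (Int.castRingHom ℝ).mapMatrix B₀ := by
    ext r c
    refine Fin.cases ?_ (fun r => ?_) r
    · simp [hB, hB₀]
    · simp [hB, hB₀, eqn]
  have h4 : B.det ≠ 0 := by
    rw [← isUnit_iff_ne_zero, ← isUnit_iff_isUnit_det, ← linearIndependent_rows_iff_isUnit]
    refine linearIndependent_finCons.2 ⟨h2, fun h5 => hS.ne' ?_⟩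
    have h6 : ∀ x ∈ Submodule.span ℝ (Set.range fun r => eqn ℝ (m + 1) (i r) (j r) (k r)),
        x ⬝ᵥ d = 0 := fun x hx => by
      induction hx using Submodule.span_induction with
      | mem x hx => obtain ⟨r, rfl⟩ := hx; exact h3 r
      | zero => simp
      | add x y _ _ hx hy => rw [add_dotProduct, hx, hy, add_zero]
      | smul a x _ hx => rw [smul_dotProduct, hx, smul_zero]
    simpa [dotProduct] using h6 _ h5
  have h5 : B *ᵥ d = Pi.single 0 (∑ s, d s) := by
    funext r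
    refine Fin.cases ?_ (fun r => ?_) r
    · simp [hB, mulVec, dotProduct]
    · simpa [hB, mulVec] using h3 r
  have h6 : B.det * d t = B.adjugate t 0 * ∑ s, d s := by
    have h7 := congrFun (congrArg (B.adjugate *ᵥ ·) h5) t
    simpa [mulVec_mulVec, adjugate_mul, smul_mulVec, mulVec_single] using h7
  have h7 : B.det = (B₀.det : ℝ) := by rw [e, ← RingHom.map_det]; rfl
  have h8 : B.adjugate t 0 = (B₀.adjugate t 0 : ℝ) := by rw [e, ← RingHom.map_adjugate]; rfl
  have h9 : B₀.adjugate t 0 ≠ 0 := fun h0 => by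
    rw [h8, h0] at h6
    exact mul_ne_zero h4 (hd t).ne' (by simpa using h6)
  have h10 : (1 : ℝ) ≤ |B.adjugate t 0| := by
    rw [h8]
    exact_mod_cast Int.one_le_abs h9
  have h11 : |B.det| ≤ 2 ^ m := by
    rw [h7]
    exact_mod_cast hb
  have h12 := congrArg abs h6
  rw [abs_mul, abs_mul, abs_of_pos (hd t), abs_of_pos hS] at h12
  nlinarith [hd t]

/-- The sequence `1, 1, 2, 4, ...`. -/
def dbl (m : ℕ) : Fin (m + 1) → ℕ := fun t => 2 ^ (t.1 - 1)

theorem sum_dbl (a : ℕ) : ∑ t ∈ range (a + 1), (2 : ℝ) ^ (t - 1) = 2 ^ a := by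
  induction a with
  | zero => simp
  | succ a ih => rw [sum_range_succ, ih, Nat.add_sub_cancel, pow_succ]; ring

theorem dbl_mem (m : ℕ) : dbl m ∈ A m := by
  refine ⟨⟨fun t => by simp [dbl], fun _ => 0, fun r => r.1 + 1, fun r => r.1 + 2,
    fun r => ⟨Nat.succ_pos _, Nat.lt_succ_self _, Nat.succ_le_succ r.2⟩, ?_, fun r => ?_⟩, ?_⟩
  · apply LinearIndependent.of_comp (LinearMap.funLeft ℝ ℝ Fin.succ)
    let M : Matrix (Fin m) (Fin m) ℝ := fun r c => eqn ℝ (m + 1) 0 (r.1 + 1) (r.1 + 2) c.succ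
    refine (linearIndependent_rows_iff_isUnit (A := M)).2 ?_
    rw [isUnit_iff_isUnit_det, isUnit_iff_ne_zero, det_of_isLowerTriangular]
    · exact prod_ne_zero_iff.2 fun r _ => by simp [M, eqn]
    · intro r c h
      have h1 : r.1 < c.1 := h
      simp only [M, eqn, Fin.val_succ]
      rw [if_neg (by omega), if_neg (by omega), sub_zero]
  · have h1 := Fin.sum_univ_eq_sum_range (fun t => ((if 0 ≤ t ∧ t < r.1 + 1 then 1 else 0) -
      (if r.1 + 1 ≤ t ∧ t < r.1 + 2 then 1 else 0)) * (2 : ℝ) ^ (t - 1)) (m + 1)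
    simp only [dotProduct, eqn, dbl, Nat.cast_pow, Nat.cast_ofNat]
    rw [h1, ← sum_subset (range_subset_range.2 (show r.1 + 1 + 1 ≤ m + 1 by omega))
      (fun t _ ht => by
        rw [mem_range] at ht
        rw [if_neg (by omega), if_neg (by omega), sub_zero, zero_mul]), sum_range_succ,
      sum_congr rfl (g := fun t => (2 : ℝ) ^ (t - 1)) (fun t ht => by
        rw [mem_range] at ht
        rw [if_pos (by omega), if_neg (by omega), sub_zero, one_mul]), sum_dbl]
    simp
  · exact Nat.dvd_one.1 ((gcd_dvd (f := dbl m) (mem_univ 0)).trans (by simp [dbl]))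

theorem result (m : ℕ) : IsLeast (ratio '' A m) (1 / 2 ^ m) := by
  constructor
  · refine ⟨dbl m, dbl_mem m, ?_⟩
    have h1 : univ.inf' univ_nonempty (dbl m) = 1 :=
      le_antisymm ((inf'_le (dbl m) (mem_univ 0)).trans (by simp [dbl])) (le_inf' _ _ fun t _ => Nat.one_le_two_pow)
    have h2 := Fin.sum_univ_eq_sum_range (fun t => (2 : ℝ) ^ (t - 1)) (m + 1)
    rw [ratio, h1]
    simp only [dbl, Nat.cast_pow, Nat.cast_ofNat, Nat.cast_one]
    rw [h2, sum_dbl]
  · rintro _ ⟨d, hd, rfl⟩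
    obtain ⟨t, -, ht⟩ := exists_mem_eq_inf' (univ_nonempty (α := Fin (m + 1))) d
    have h1 := sum_le hd.1 t
    have h2 : 0 < ∑ s, (d s : ℝ) := sum_pos (fun s _ => hd.1.1 s) univ_nonempty
    rw [ratio, ht, div_le_div_iff₀ (by positivity) h2]
    linarith

end Pool.Agent.Results.MP_6f4934_co.MinTerm
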